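import Pool.Agent.N496.LT.Stm

/-!
# Project h636 (LT): piece P3A, ranks modulo `p` and over `ℝ`
-/

set_option autoImplicit false

open Matrix Module

namespace Run7.h396.LT.P3A

open Pool.Agent.N496.LT


/-- Over a field a matrix of rank `r` is carried to the identity of size `r`. -/
theorem exists_mul_mul_eq_one {K m n : Type} [Field K] [Fintype m] [DecidableEq m] [Fintype n] [DecidableEq n]
    (A : Matrix m n K) : ∃ (L : Matrix (Fin A.rank) m K) (C : Matrix n (Fin A.rank) K), L * A * C = 1 := by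
  set f : (n → K) →ₗ[K] (m → K) := A.mulVecLin with hf
  have hr : finrank K (LinearMap.range f) = A.rank := rfl
  let e : LinearMap.range f ≃ₗ[K] (Fin A.rank → K) :=
    LinearEquiv.ofFinrankEq _ _ (by rw [hr, finrank_fin_fun])
  obtain ⟨g, hg⟩ := f.rangeRestrict.exists_rightInverse_of_surjective f.range_rangeRestrict
  obtain ⟨h, hh⟩ := (LinearMap.range f).subtype.exists_leftInverse_of_injective (Submodule.ker_subtype _)
  have key : (e.toLinearMap ∘ₗ h) ∘ₗ f ∘ₗ (g ∘ₗ e.symm.toLinearMap) = LinearMap.id := by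
    refine LinearMap.ext fun x => ?_
    have h1 : f (g (e.symm x)) = (LinearMap.range f).subtype (e.symm x) := by
      have := LinearMap.congr_fun hg (e.symm x)
      exact congrArg Subtype.val this
    have h2 : h ((LinearMap.range f).subtype (e.symm x)) = e.symm x := LinearMap.congr_fun hh (e.symm x)
    change e (h (f (g (e.symm x)))) = x
    rw [h1, h2, e.apply_symm_apply]
  refine ⟨LinearMap.toMatrix' (e.toLinearMap ∘ₗ h), LinearMap.toMatrix' (g ∘ₗ e.symm.toLinearMap), ?_⟩
  have h3 : LinearMap.toMatrix' f = A := by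
    rw [hf, ← Matrix.toLin'_apply', LinearMap.toMatrix'_toLin']
  rw [← LinearMap.toMatrix'_id, ← key, LinearMap.toMatrix'_comp, LinearMap.toMatrix'_comp, h3, Matrix.mul_assoc]

theorem le_rank_of_mul_mul {m n : Type} [Fintype m] [DecidableEq m] [Fintype n] [DecidableEq n] (A : Matrix m n ℤ)
    (p : ℕ) [Fact p.Prime] (K : Type) [Field K] [CharZero K] {r : ℕ} (L : Matrix (Fin r) m (ZMod p))
    (C : Matrix n (Fin r) (ZMod p)) (h : L * A.map (Int.cast : ℤ → ZMod p) * C = 1) :
    r ≤ (A.map (Int.cast : ℤ → K)).rank := by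
  let L' : Matrix (Fin r) m ℤ := L.map fun x => (x.val : ℤ)
  let C' : Matrix n (Fin r) ℤ := C.map fun x => (x.val : ℤ)
  have hL : L'.map (Int.castRingHom (ZMod p)) = L := by
    ext i j
    simp [L']
  have hC : C'.map (Int.castRingHom (ZMod p)) = C := by
    ext i j
    simp [C']
  have h1 : (L' * A * C').map (Int.castRingHom (ZMod p)) = 1 := by
    rw [Matrix.map_mul, Matrix.map_mul, hL, hC]
    exact h
  have h2 : (L' * A * C').det ≠ 0 := by
    intro h0
    have h3 := congrArg Matrix.det h1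
    rw [Matrix.det_one, ← RingHom.mapMatrix_apply, ← RingHom.map_det, h0, map_zero] at h3
    exact zero_ne_one h3
  have h4 : ((L' * A * C').map (Int.castRingHom K)).det ≠ 0 := by
    rw [← RingHom.mapMatrix_apply, ← RingHom.map_det]
    simpa using h2
  have h5 := rank_of_det_ne_zero h4
  rw [Fintype.card_fin] at h5
  rw [← h5, Matrix.map_mul, Matrix.map_mul]
  exact (rank_mul_le_left _ _).trans (rank_mul_le_right _ _)

/-- The rank modulo `p` of an integral matrix is at most its rank over a field of characteristic zero. -/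
theorem rank_zmod_le {m n : Type} [Fintype m] [DecidableEq m] [Fintype n] [DecidableEq n] (A : Matrix m n ℤ)
    (p : ℕ) [Fact p.Prime] (K : Type) [Field K] [CharZero K] :
    (A.map (Int.cast : ℤ → ZMod p)).rank ≤ (A.map (Int.cast : ℤ → K)).rank := by
  obtain ⟨L, C, h⟩ := exists_mul_mul_eq_one (A.map (Int.cast : ℤ → ZMod p))
  exact le_rank_of_mul_mul A p K L C h

section cx

variable {Q : Type} [Group Q] [Fintype Q] (C : GCx Q)

omit [Fintype Q] in
theorem mat_eq_map (F : Type) [Ring F] : C.mat F = (C.mat ℤ).map (Int.cast : ℤ → F) := by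
  ext x y
  simp [GCx.mat]

theorem mat_sq_int : C.mat ℤ * C.mat ℤ = 0 := by
  classical
  ext x y
  rw [Matrix.mul_apply, Matrix.zero_apply, Fintype.sum_prod_type]
  have h := congrArg (fun z : MonoidAlgebra ℤ Q => z.coeff (x.2⁻¹ * y.2)) (congrFun (congrFun C.D_sq x.1) y.1)
  simp only [Matrix.mul_apply, Matrix.zero_apply, MonoidAlgebra.coeff_sum, MonoidAlgebra.coeff_zero,
    Finsupp.coe_finsetSum, Finset.sum_apply, Finsupp.coe_zero, Pi.zero_apply] at h
  rw [← h]
  refine Finset.sum_congr rfl fun k _ => ?_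
  rw [MonoidAlgebra.coeff_mul_apply_left, Finsupp.sum_fintype _ _ (by simp)]
  refine (Fintype.sum_equiv (Equiv.mulLeft x.2⁻¹) _ _ fun g => ?_)
  simp [GCx.mat, mul_assoc]

theorem mat_sq (F : Type) [Field F] : C.mat F * C.mat F = 0 := by
  rw [mat_eq_map]
  have h := congrArg (fun M : Matrix (C.ι × Q) (C.ι × Q) ℤ => M.map (Int.castRingHom F)) (mat_sq_int C)
  simp only [Matrix.map_mul] at h
  simpa using h

theorem rk_zmod_le (p : ℕ) [Fact p.Prime] (n : ℕ) : C.rk (ZMod p) n ≤ C.rk ℝ n := by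
  classical
  have h := rank_zmod_le ((C.mat ℤ).submatrix (fun x : {x : C.ι × Q // C.deg x.1 = n} => x.1) id) p ℝ
  unfold GCx.rk
  rw [mat_eq_map C (ZMod p), mat_eq_map C ℝ]
  exact h

theorem rk_add_rk_le (F : Type) [Field F] (n : ℕ) :
    C.rk F (n + 1) + C.rk F n ≤ Fintype.card {i : C.ι // C.deg i = n} * Fintype.card Q := by
  classical
  let A : Matrix {x : C.ι × Q // C.deg x.1 = n + 1} {x : C.ι × Q // C.deg x.1 = n} F :=
    (C.mat F).submatrix (fun x => x.1) (fun x => x.1)
  let B : Matrix {x : C.ι × Q // C.deg x.1 = n} (C.ι × Q) F := (C.mat F).submatrix (fun x => x.1) id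
  have hz : ∀ x y : C.ι × Q, C.deg x.1 ≠ C.deg y.1 + 1 → C.mat F x y = 0 := by
    intro x y h
    have h0 : C.D x.1 y.1 = 0 := by
      by_contra h1
      exact h (C.D_deg _ _ h1)
    simp [GCx.mat, h0]
  have hAB : A * B = 0 := by
    ext x y
    have h := congrFun (congrFun (mat_sq C F) x.1) y
    rw [Matrix.mul_apply, Matrix.zero_apply] at h
    rw [Matrix.mul_apply, Matrix.zero_apply, ← h]
    exact sum_deg (fun k : C.ι × Q => C.deg k.1) n (fun k => C.mat F x.1 k * C.mat F k y) fun k hk => by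
      rw [hz x.1 k (by rw [x.2]; omega), zero_mul]
  have h1 := rank_add_rank_le_card_of_mul_eq_zero hAB
  have h2 : C.rk F (n + 1) = A.rank := by
    apply le_antisymm
    · let E : Matrix {x : C.ι × Q // C.deg x.1 = n} (C.ι × Q) F := Matrix.of fun x y => if x.1 = y then 1 else 0
      have h3 : (C.mat F).submatrix (fun x : {x : C.ι × Q // C.deg x.1 = n + 1} => x.1) id = A * E := by
        ext x y
        rw [Matrix.mul_apply]
        by_cases hy : C.deg y.1 = n
        · rw [Finset.sum_eq_single (⟨y, hy⟩ : {x : C.ι × Q // C.deg x.1 = n})]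
          · simp [A, E]
          · intro b _ hb
            have : b.1 ≠ y := fun h => hb (Subtype.ext h)
            simp [E, this]
          · simp
        · rw [Finset.sum_eq_zero]
          · exact hz x.1 y (by rw [x.2]; omega)
          · intro b _
            have : b.1 ≠ y := fun h => hy (by rw [← h]; exact b.2)
            simp [E, this]
      unfold GCx.rk
      rw [h3]
      exact rank_mul_le_left _ _
    · exact rank_submatrix_le ((C.mat F).submatrix (fun x : {x : C.ι × Q // C.deg x.1 = n + 1} => x.1) id) id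
        (fun x : {x : C.ι × Q // C.deg x.1 = n} => x.1)
  have h4 : Fintype.card {x : C.ι × Q // C.deg x.1 = n} =
      Fintype.card {i : C.ι // C.deg i = n} * Fintype.card Q := by
    rw [← Fintype.card_prod]
    exact Fintype.card_congr (Equiv.prodSubtypeFstEquivSubtypeProd (p := fun i => C.deg i = n))
  rw [h2, ← h4]
  exact h1

end cx

theorem main : Pool.Agent.N496.LT.P3A := by
  intro Q _ _ C p _ n
  have h1 := rk_zmod_le C p
  have h2 : ∀ n, 0 ≤ C.betti ℝ n := by
    intro n
    have h3 : ((C.rk ℝ (n + 1) + C.rk ℝ n : ℕ) : ℤ) ≤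
        ((Fintype.card {i : C.ι // C.deg i = n} * Fintype.card Q : ℕ) : ℤ) := Nat.cast_le.2 (rk_add_rk_le C ℝ n)
    unfold GCx.betti
    push_cast at h3
    linarith
  refine ⟨h1 n, h2 n, ?_⟩
  have h3 : ((C.rk ℝ (n + 3) + C.rk ℝ (n + 2) : ℕ) : ℤ) ≤
      ((Fintype.card {i : C.ι // C.deg i = n + 2} * Fintype.card Q : ℕ) : ℤ) :=
    Nat.cast_le.2 (rk_add_rk_le C ℝ (n + 2))
  have h4 : ((C.rk (ZMod p) (n + 1) : ℕ) : ℤ) ≤ C.rk ℝ (n + 1) := Nat.cast_le.2 (h1 (n + 1))
  have h6 : ((C.rk (ZMod p) (n + 3) : ℕ) : ℤ) ≤ C.rk ℝ (n + 3) := Nat.cast_le.2 (h1 (n + 3))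
  have h7 : ((C.tp p n : ℕ) : ℤ) = C.rk ℝ (n + 1) - C.rk (ZMod p) (n + 1) := by
    unfold GCx.tp
    rw [Nat.cast_sub (h1 (n + 1))]
  rw [h7]
  unfold GCx.betti
  push_cast at h3
  change (Fintype.card {i : C.ι // C.deg i = n + 1} * Fintype.card Q - C.rk (ZMod p) (n + 1) - C.rk (ZMod p) (n + 2) -
    (Fintype.card {i : C.ι // C.deg i = n + 1} * Fintype.card Q - C.rk ℝ (n + 1) - C.rk ℝ (n + 2)) -
    (Fintype.card {i : C.ι // C.deg i = n + 2} * Fintype.card Q - C.rk (ZMod p) (n + 2) - C.rk (ZMod p) (n + 3)) : ℤ) ≤ _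
  linarith

end Run7.h396.LT.P3A
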