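import Pool.Agent.Run7.h636.LT.Iface

/-!
# Project h636 (LT): piece SMITH, classes of order divisible by `p` from the Smith normal form
-/

set_option autoImplicit false

open Matrix Module

namespace Run7.h396.LT.SMITH

open Run7.h636.LT


theorem dot_single {K : Type} [Fintype K] [DecidableEq K] (L : (K → ℤ) →ₗ[ℤ] ℤ) (v : K → ℤ) :
    (fun j => L (Pi.single j 1)) ⬝ᵥ v = L v := by
  conv_rhs => rw [pi_eq_sum_univ' v]
  rw [map_sum]
  refine Finset.sum_congr rfl fun j _ => ?_
  rw [map_smul, smul_eq_mul, mul_comm]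

theorem smith {R K : Type} [Fintype R] [DecidableEq R] [Fintype K] [DecidableEq K] (A : Matrix R K ℤ) :
    ∃ (r : ℕ) (x : Fin r → R → ℤ) (y : Fin r → K → ℤ) (a : Fin r → ℤ) (φ : Fin r → K → ℤ) (ψ : Fin r → R → ℤ),
      (∀ i, a i ≠ 0) ∧ (∀ i, x i ᵥ* A = a i • y i) ∧ (∀ i j, φ i ⬝ᵥ y j = if i = j then 1 else 0) ∧
      (∀ i j, ψ i ⬝ᵥ x j = if i = j then 1 else 0) ∧ (∀ i, A *ᵥ φ i = a i • ψ i) ∧
      ∀ v : R → ℤ, v ᵥ* A = ∑ i, (ψ i ⬝ᵥ v) • (a i • y i) := by
  classical
  let T : (R → ℤ) →ₗ[ℤ] (K → ℤ) := A.vecMulLinear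
  have hT : ∀ v, T v = v ᵥ* A := fun v => rfl
  obtain ⟨r, s⟩ := Submodule.smithNormalForm (Pi.basisFun ℤ K) (LinearMap.range T)
  have hx : ∀ i, ∃ x, T x = (s.bN i : K → ℤ) := fun i => (s.bN i).2
  choose x hx using hx
  let Φ : Fin r → (K → ℤ) →ₗ[ℤ] ℤ := fun i => s.bM.coord (s.f i)
  let Ψ : Fin r → (R → ℤ) →ₗ[ℤ] ℤ := fun i => s.bN.coord i ∘ₗ T.rangeRestrict
  have ha : ∀ i, s.a i ≠ 0 := by
    intro i h
    have h1 := s.snf i
    rw [h, zero_smul] at h1
    exact s.bN.ne_zero i (Subtype.ext h1)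
  have hΨΦ : ∀ i v, Φ i (T v) = s.a i * Ψ i v := by
    intro i v
    have h1 : T v = ∑ j, Ψ j v • (s.a j • s.bM (s.f j)) := by
      have h2 := congrArg Subtype.val (s.bN.sum_repr (T.rangeRestrict v))
      rw [AddSubmonoidClass.coe_finsetSum] at h2
      change _ = T v at h2
      rw [← h2]
      refine Finset.sum_congr rfl fun j _ => ?_
      rw [← s.snf j]
      rfl
    rw [h1, map_sum, Finset.sum_eq_single i]
    · rw [map_smul, map_smul, Basis.coord_apply, Basis.repr_self, Finsupp.single_eq_same, smul_eq_mul,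
        smul_eq_mul, mul_one, mul_comm]
    · intro j _ hj
      rw [map_smul, map_smul, Basis.coord_apply, Basis.repr_self, Finsupp.single_apply,
        if_neg (s.f.injective.ne hj), smul_zero, smul_zero]
    · simp
  refine ⟨r, x, fun i => s.bM (s.f i), s.a, fun i j => Φ i (Pi.single j 1), fun i j => Ψ i (Pi.single j 1), ha,
    ?_, ?_, ?_, ?_, ?_⟩
  · intro i
    rw [← hT, hx, s.snf]
  · intro i j
    rw [dot_single]
    by_cases h : i = j
    · subst h
      simp [Φ]
    · simp [Φ, h, Finsupp.single_apply, s.f.injective.ne (Ne.symm h)]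
  · intro i j
    rw [dot_single]
    have h1 : T.rangeRestrict (x j) = s.bN j := Subtype.ext (hx j)
    simp only [Ψ, LinearMap.comp_apply, h1, Basis.coord_apply, Basis.repr_self, Finsupp.single_apply, eq_comm]
  · intro i
    ext k
    have h1 := hΨΦ i (Pi.single k 1)
    rw [Pi.smul_apply, smul_eq_mul, ← h1, ← dot_single (Φ i) (T (Pi.single k 1)), hT, single_one_vecMul,
      Matrix.mulVec, dotProduct_comm]
    rfl
  · intro v
    have h2 := congrArg Subtype.val (s.bN.sum_repr (T.rangeRestrict v))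
    rw [AddSubmonoidClass.coe_finsetSum] at h2
    change _ = v ᵥ* A at h2
    rw [← h2]
    refine Finset.sum_congr rfl fun j _ => ?_
    rw [← s.snf j, dot_single]
    rfl

/-! ### extension by zero -/

section ext

variable {I : Type} [Fintype I] [DecidableEq I] (deg : I → ℕ)

/-- extension by zero of a function on the cells of degree `m` -/
def E {α : Type} [Zero α] (m : ℕ) (f : {i : I // deg i = m} → α) : I → α :=
  fun i => if h : deg i = m then f ⟨i, h⟩ else 0

omit [Fintype I] [DecidableEq I] in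
theorem E_of {α : Type} [Zero α] {m : ℕ} (f : {i : I // deg i = m} → α) {i : I} (h : deg i = m) :
    E deg m f i = f ⟨i, h⟩ := dif_pos h

omit [Fintype I] [DecidableEq I] in
theorem E_not {α : Type} [Zero α] {m : ℕ} (f : {i : I // deg i = m} → α) {i : I} (h : deg i ≠ m) :
    E deg m f i = 0 := dif_neg h

omit [DecidableEq I] in
theorem sum_E {α : Type} [Semiring α] {m : ℕ} (f : {i : I // deg i = m} → α) (g : I → α) :
    ∑ i, E deg m f i * g i = ∑ i : {i : I // deg i = m}, f i * g i.1 := by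
  rw [← Pool.Agent.N496.LT.sum_deg deg m (fun i => E deg m f i * g i) (fun k hk => by
    rw [E_not deg f hk, zero_mul])]
  exact Finset.sum_congr rfl fun i _ => by rw [E_of deg f i.2]

omit [DecidableEq I] in
theorem sum_E' {α : Type} [Semiring α] {m : ℕ} (f : {i : I // deg i = m} → α) (g : I → α) :
    ∑ i, g i * E deg m f i = ∑ i : {i : I // deg i = m}, g i.1 * f i := by
  rw [← Pool.Agent.N496.LT.sum_deg deg m (fun i => g i * E deg m f i) (fun k hk => by
    rw [E_not deg f hk, mul_zero])]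
  exact Finset.sum_congr rfl fun i _ => by rw [E_of deg f i.2]

end ext

section main

variable (C : ZC) (n : ℕ)

/-- the boundary from degree `n + 1` to degree `n` -/
def blk : Matrix {i : C.I // C.deg i = n + 1} {i : C.I // C.deg i = n} ℤ :=
  C.M.submatrix (fun i => i.1) (fun i => i.1)

theorem M_zero {i j : C.I} (h : C.deg i ≠ C.deg j + 1) : C.M i j = 0 := by
  by_contra h1
  exact h (C.M_deg _ _ h1)

theorem rk_le (F : Type) [Field F] : C.rk F (n + 1) ≤ ((blk C n).map (Int.cast : ℤ → F)).rank := by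
  classical
  let S : Matrix {x : C.I // C.deg x = n} C.I F := Matrix.of fun x y => if x.1 = y then 1 else 0
  have h3 : ((C.M.map (Int.cast : ℤ → F)).submatrix (fun x : {x : C.I // C.deg x = n + 1} => x.1) id) =
      (blk C n).map (Int.cast : ℤ → F) * S := by
    ext x y
    rw [Matrix.mul_apply]
    by_cases hy : C.deg y = n
    · rw [Finset.sum_eq_single (⟨y, hy⟩ : {x : C.I // C.deg x = n})]
      · simp [S, blk]
      · intro b _ hb
        have : b.1 ≠ y := fun h => hb (Subtype.ext h)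
        simp [S, this]
      · simp
    · rw [Finset.sum_eq_zero]
      · simp [M_zero C (i := x.1) (j := y) (by rw [x.2]; omega)]
      · intro b _
        have : b.1 ≠ y := fun h => hy (by rw [← h]; exact b.2)
        simp [S, this]
  unfold ZC.rk
  rw [h3]
  exact rank_mul_le_left _ _

theorem le_rk (F : Type) [Field F] : ((blk C n).map (Int.cast : ℤ → F)).rank ≤ C.rk F (n + 1) :=
  rank_submatrix_le ((C.M.map (Int.cast : ℤ → F)).submatrix (fun x : {x : C.I // C.deg x = n + 1} => x.1) id) id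
    (fun x : {x : C.I // C.deg x = n} => x.1)

end main

theorem rank_le_of_smith {R K : Type} [Fintype R] [DecidableEq R] [Fintype K] [DecidableEq K] (A : Matrix R K ℤ)
    {r : ℕ} (y : Fin r → K → ℤ) (a : Fin r → ℤ) (ψ : Fin r → R → ℤ)
    (h : ∀ v : R → ℤ, v ᵥ* A = ∑ i, (ψ i ⬝ᵥ v) • (a i • y i)) (F : Type) [Field F] :
    (A.map (Int.cast : ℤ → F)).rank ≤ r := by
  let U : Matrix R (Fin r) ℤ := Matrix.of fun i k => ψ k i
  let W : Matrix (Fin r) K ℤ := Matrix.of fun k j => a k * y k j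
  have h1 : A = U * W := by
    ext i j
    have h2 := congrFun (h (Pi.single i 1)) j
    rw [single_one_vecMul] at h2
    rw [Matrix.mul_apply]
    change A i j = _ at h2
    rw [h2, Finset.sum_apply]
    refine Finset.sum_congr rfl fun k _ => ?_
    simp [U, W]
  have h2 : A.map (Int.castRingHom F) = U.map (Int.castRingHom F) * W.map (Int.castRingHom F) := by
    rw [← Matrix.map_mul, ← h1]
  change (A.map (Int.castRingHom F)).rank ≤ r
  rw [h2]
  refine (rank_mul_le_left _ _).trans ((rank_le_card_width _).trans ?_)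
  rw [Fintype.card_fin]

theorem card_le_of_smith {R K : Type} [Fintype R] [DecidableEq R] [Fintype K] [DecidableEq K] (A : Matrix R K ℤ)
    {r : ℕ} (x : Fin r → R → ℤ) (y : Fin r → K → ℤ) (a : Fin r → ℤ) (φ : Fin r → K → ℤ)
    (h1 : ∀ i, x i ᵥ* A = a i • y i) (h2 : ∀ i j, φ i ⬝ᵥ y j = if i = j then 1 else 0) (p : ℕ) [Fact p.Prime] :
    Fintype.card {i : Fin r // ¬ (p : ℤ) ∣ a i} ≤ (A.map (Int.cast : ℤ → ZMod p)).rank := by
  classical
  let X : Matrix {i : Fin r // ¬ (p : ℤ) ∣ a i} R ℤ := Matrix.of fun i k => x i.1 k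
  let Φ : Matrix K {i : Fin r // ¬ (p : ℤ) ∣ a i} ℤ := Matrix.of fun k i => φ i.1 k
  have h3 : X * A * Φ = Matrix.diagonal fun i => a i.1 := by
    ext i j
    have h4 : (X * A) i = a i.1 • y i.1 := by
      rw [← h1]
      rfl
    rw [Matrix.mul_apply]
    have h5 : ∀ k, (X * A) i k * Φ k j = a i.1 * (φ j.1 k * y i.1 k) := by
      intro k
      rw [h4]
      simp [Φ]
      ring
    simp only [h5]
    rw [← Finset.mul_sum]
    have h6 := h2 j.1 i.1
    rw [dotProduct] at h6
    rw [h6, Matrix.diagonal_apply]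
    by_cases hij : i = j
    · subst hij
      simp
    · rw [if_neg hij, if_neg fun h => hij (Subtype.ext h.symm), mul_zero]
  have h4 : X.map (Int.castRingHom (ZMod p)) * A.map (Int.castRingHom (ZMod p)) * Φ.map (Int.castRingHom (ZMod p)) =
      Matrix.diagonal fun i => ((a i.1 : ℤ) : ZMod p) := by
    rw [← Matrix.map_mul, ← Matrix.map_mul, h3, Matrix.diagonal_map (map_zero _)]
    rfl
  have h5 : (Matrix.diagonal fun i : {i : Fin r // ¬ (p : ℤ) ∣ a i} => ((a i.1 : ℤ) : ZMod p)).det ≠ 0 := by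
    rw [Matrix.det_diagonal, Finset.prod_ne_zero_iff]
    intro i _ h
    exact i.2 ((ZMod.intCast_zmod_eq_zero_iff_dvd _ _).1 h)
  rw [← rank_of_det_ne_zero h5, ← h4]
  exact (rank_mul_le_left _ _).trans (rank_mul_le_right _ _)

theorem main : S_SMITH := by
  classical
  intro C p _ n
  obtain ⟨r, x, y, a, φ, ψ, ha, hxy, hφy, hψx, hφ, hv⟩ := smith (blk C n)
  have h1 : C.rk ℝ (n + 1) ≤ r := (rk_le C n ℝ).trans (rank_le_of_smith (blk C n) y a ψ hv ℝ)
  have h2 : Fintype.card {i : Fin r // ¬ (p : ℤ) ∣ a i} ≤ C.rk (ZMod p) (n + 1) :=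
    (card_le_of_smith (blk C n) x y a φ hxy hφy p).trans (le_rk C n (ZMod p))
  have h3 := Fintype.card_subtype_compl (fun i : Fin r => (p : ℤ) ∣ a i)
  rw [Fintype.card_fin] at h3
  have h4 : Fintype.card {i : Fin r // (p : ℤ) ∣ a i} ≤ r := by
    have := Fintype.card_subtype_le (fun i : Fin r => (p : ℤ) ∣ a i)
    rwa [Fintype.card_fin] at this
  obtain ⟨e⟩ : Nonempty (Fin (C.rk ℝ (n + 1) - C.rk (ZMod p) (n + 1)) ↪ {i : Fin r // (p : ℤ) ∣ a i}) := by
    apply Function.Embedding.nonempty_of_card_le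
    rw [Fintype.card_fin]
    omega
  have hMz : ∀ {i j : C.I}, C.deg i ≠ C.deg j + 1 → C.M i j = 0 := fun h => M_zero C h
  refine ⟨{
    x := fun k => E C.deg (n + 1) (x (e k).1)
    y := fun k => E C.deg n (y (e k).1)
    a := fun k => a (e k).1
    φ := fun k => E C.deg n (fun i => ((φ (e k).1 i : ℤ) : ZMod p))
    ψ := fun k => E C.deg (n + 1) (fun i => ((ψ (e k).1 i : ℤ) : ZMod p))
    x_deg := fun k i h => E_not _ _ h
    y_deg := fun k i h => E_not _ _ h
    φ_deg := fun k i h => E_not _ _ h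
    ψ_deg := fun k i h => E_not _ _ h
    bd := fun k => ?_
    a_ne := fun k => ha _
    a_dvd := fun k => (e k).2
    φy := fun k l => ?_
    ψx := fun k l => ?_
    φ_cyc := fun k i => ?_
    ψ_cyc := fun k i => ?_ }⟩
  · ext j
    have h5 : (E C.deg (n + 1) (x (e k).1) ᵥ* C.M) j = ∑ i : {i : C.I // C.deg i = n + 1}, x (e k).1 i * C.M i.1 j :=
      sum_E C.deg (x (e k).1) (fun i => C.M i j)
    rw [h5, Pi.smul_apply]
    by_cases hj : C.deg j = n
    · rw [E_of C.deg _ hj]
      exact congrFun (hxy (e k).1) ⟨j, hj⟩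
    · rw [E_not C.deg _ hj, smul_zero]
      refine Finset.sum_eq_zero fun i _ => ?_
      rw [hMz (i := i.1) (j := j) (by rw [i.2]; omega), mul_zero]
  · rw [sum_E]
    have h5 := congrArg (Int.cast : ℤ → ZMod p) (hφy (e k).1 (e l).1)
    rw [dotProduct] at h5
    push_cast at h5
    have h6 : ((e k).1 = (e l).1) ↔ k = l := by
      rw [← Subtype.ext_iff]
      exact e.injective.eq_iff
    simp only [h6] at h5
    rw [← h5]
    exact Finset.sum_congr rfl fun i _ => by rw [E_of C.deg _ i.2]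
  · rw [sum_E]
    have h5 := congrArg (Int.cast : ℤ → ZMod p) (hψx (e k).1 (e l).1)
    rw [dotProduct] at h5
    push_cast at h5
    have h6 : ((e k).1 = (e l).1) ↔ k = l := by
      rw [← Subtype.ext_iff]
      exact e.injective.eq_iff
    simp only [h6] at h5
    rw [← h5]
    exact Finset.sum_congr rfl fun i _ => by rw [E_of C.deg _ i.2]
  · rw [sum_E']
    by_cases hi : C.deg i = n + 1
    · have h5 := congrArg (Int.cast : ℤ → ZMod p) (congrFun (hφ (e k).1) ⟨i, hi⟩)
      rw [Matrix.mulVec, dotProduct] at h5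
      rw [Pi.smul_apply, smul_eq_mul, Int.cast_mul, (ZMod.intCast_zmod_eq_zero_iff_dvd _ _).2 (e k).2, zero_mul] at h5
      push_cast at h5
      exact h5
    · refine Finset.sum_eq_zero fun j _ => ?_
      rw [hMz (i := i) (j := j.1) (by rw [j.2]; exact hi), Int.cast_zero, zero_mul]
  · rw [sum_E']
    let w : {i : C.I // C.deg i = n + 1} → ℤ := fun j => C.M i j.1
    have h5 : w ᵥ* blk C n = 0 := by
      ext l
      have h6 := congrFun (congrFun C.M_sq i) l.1
      rw [Matrix.mul_apply, Matrix.zero_apply] at h6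
      rw [Pi.zero_apply, ← h6]
      exact Pool.Agent.N496.LT.sum_deg C.deg (n + 1) (fun j => C.M i j * C.M j l.1) fun j hj => by
        rw [hMz (i := j) (j := l.1) (by rw [l.2]; exact hj), mul_zero]
    have h6 : a (e k).1 * (ψ (e k).1 ⬝ᵥ w) = 0 := by
      have h7 : φ (e k).1 ⬝ᵥ (w ᵥ* blk C n) = a (e k).1 * (ψ (e k).1 ⬝ᵥ w) := by
        rw [dotProduct_comm, ← dotProduct_mulVec, hφ, dotProduct_smul, smul_eq_mul, dotProduct_comm]
      rw [← h7, h5, dotProduct_zero]
    have h7 : ψ (e k).1 ⬝ᵥ w = 0 := (mul_eq_zero.1 h6).resolve_left (ha _)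
    have h8 := congrArg (Int.cast : ℤ → ZMod p) h7
    rw [dotProduct] at h8
    push_cast at h8
    rw [← h8]
    exact Finset.sum_congr rfl fun j _ => mul_comm _ _

end Run7.h396.LT.SMITH
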